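import Pool.Agent.H42.Hb.Base
import Pool.Agent.H7.Artin.Sym

/-!
Class functions with nonnegative inner products with all characters; deflation to quotients.
-/

open Finset

open scoped ComplexOrder

namespace Pool.Agent.H72.Sol

open Pool.Agent.H7.HB Pool.Agent.H7.Artin

set_option linter.unusedSectionVars false

variable {G : Type} [Group G] {θ : G → ℂ}

/-- the inner product, for a group with a proof of finiteness -/
noncomputable def ipF [Finite G] (f f' : G → ℂ) : ℂ := @ip G _ (Fintype.ofFinite G) f f'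

theorem ipF_eq [Fintype G] (f f' : G → ℂ) : ipF f f' = ip f f' := by
  unfold ipF
  rw [Subsingleton.elim (Fintype.ofFinite G) ‹Fintype G›]

/-- nonnegative inner products with all characters -/
def Pos [Finite G] (θ : G → ℂ) : Prop :=
  ∀ (V : Type) [AddCommGroup V] [Module ℂ V] [FiniteDimensional ℂ V]
    (ρ : Representation ℂ G V), 0 ≤ ipF θ ρ.character

theorem card_cne [Finite G] : (Nat.card G : ℂ) ≠ 0 := by exact_mod_cast Nat.card_pos.ne'

/-- class functions supported on a subgroup -/
theorem ipF_sub [Finite G] (T : Subgroup G) (f χ : G → ℂ) (hf : ∀ g, g ∉ T → f g = 0) :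
    ipF f χ = ((Nat.card T : ℂ) / Nat.card G) * ipF (fun t : T => f t) (fun t : T => χ t) := by
  classical
  let _ : Fintype G := Fintype.ofFinite G
  let _ : Fintype T := Fintype.ofFinite T
  rw [ipF_eq, ipF_eq]
  unfold ip
  have h1 : ∑ g : G, f g * χ g⁻¹ = ∑ t : T, f t * χ ((t⁻¹ : T) : G) := by
    refine (Fintype.sum_of_injective (fun t : T => (t : G)) Subtype.val_injective _ _ ?_ ?_).symm
    · intro g hg
      rw [hf g fun h => hg ⟨⟨g, h⟩, rfl⟩, zero_mul]
    · intro t
      rw [InvMemClass.coe_inv]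
  rw [h1]
  have hT : (Nat.card T : ℂ) ≠ 0 := card_cne
  have hG : (Nat.card G : ℂ) ≠ 0 := card_cne
  field_simp

section pull

variable {K Q : Type} [Group K] [Group Q]

/-- the fibre product -/
def pull (φ : K →* Q) (π : G →* Q) : Subgroup (K × G) where
  carrier := {p | φ p.1 = π p.2}
  mul_mem' := by
    intro a b ha hb
    change φ (a.1 * b.1) = π (a.2 * b.2)
    rw [map_mul, map_mul]
    exact congrArg₂ _ ha hb
  one_mem' := by
    change φ 1 = π 1
    rw [map_one, map_one]
  inv_mem' := by
    intro a ha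
    change φ a.1⁻¹ = π a.2⁻¹
    rw [map_inv, map_inv]
    exact congrArg _ ha

/-- first projection -/
def pull1 (φ : K →* Q) (π : G →* Q) : pull φ π →* K := (MonoidHom.fst K G).comp (pull φ π).subtype

/-- second projection -/
def pull2 (φ : K →* Q) (π : G →* Q) : pull φ π →* G := (MonoidHom.snd K G).comp (pull φ π).subtype

theorem pull_spec (φ : K →* Q) (π : G →* Q) (x : pull φ π) :
    φ (pull1 φ π x) = π (pull2 φ π x) := x.2

theorem pull1_surj (φ : K →* Q) {π : G →* Q} (hπ : Function.Surjective π) :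
    Function.Surjective (pull1 φ π) := by
  intro k
  obtain ⟨g, hg⟩ := hπ (φ k)
  exact ⟨⟨(k, g), hg.symm⟩, rfl⟩

theorem pull2_inj {φ : K →* Q} (π : G →* Q) (hφ : Function.Injective φ) :
    Function.Injective (pull2 φ π) := by
  intro x y hxy
  have h1 : pull1 φ π x = pull1 φ π y := by
    apply hφ
    rw [pull_spec, pull_spec, hxy]
  exact Subtype.ext (Prod.ext h1 hxy)

open Classical in
/-- deflation of a function along a homomorphism -/
noncomputable def defl [Finite G] (π : G →* Q) (θ : G → ℂ) (q : Q) : ℂ :=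
  (Nat.card π.ker : ℂ)⁻¹ * ∑ g ∈ @Finset.univ G (Fintype.ofFinite G), if π g = q then θ g else 0

open Classical in
theorem defl_eq [Fintype G] (π : G →* Q) (θ : G → ℂ) (q : Q) :
    defl π θ q = (Nat.card π.ker : ℂ)⁻¹ * ∑ g : G, if π g = q then θ g else 0 := by
  unfold defl
  rw [Subsingleton.elim (Fintype.ofFinite G) ‹Fintype G›]

open Classical in
theorem card_fiber [Fintype G] (π : G →* Q) (hπ : Function.Surjective π) (q : Q) :
    (Finset.univ.filter fun g : G => π g = q).card = Nat.card π.ker := by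
  rw [MonoidHom.card_fiber_eq_of_mem_range π (hπ q) (hπ 1), Nat.card_eq_fintype_card]
  rw [← Fintype.card_coe]
  exact Fintype.card_congr (Equiv.subtypeEquivRight fun g => by
    simp [MonoidHom.mem_ker])

theorem ker_cne [Finite G] (π : G →* Q) : (Nat.card π.ker : ℂ) ≠ 0 := card_cne

theorem sum_pull [Fintype G] [Fintype K] (φ : K →* Q) (π : G →* Q) [Fintype (pull φ π)]
    (F : K → ℂ) : ∑ x : pull φ π, θ (pull2 φ π x) * F (pull1 φ π x)
      = (Nat.card π.ker : ℂ) * ∑ k : K, defl π θ (φ k) * F k := by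
  classical
  have h1 : ∑ x : pull φ π, θ (pull2 φ π x) * F (pull1 φ π x)
      = ∑ p : K × G, if φ p.1 = π p.2 then θ p.2 * F p.1 else 0 := by
    refine Fintype.sum_of_injective (fun x : pull φ π => (x : K × G)) Subtype.val_injective _ _
      ?_ ?_
    · intro p hp
      refine if_neg fun h => hp ⟨⟨p, h⟩, rfl⟩
    · intro x
      have hx : φ (x : K × G).1 = π (x : K × G).2 := x.2
      rw [if_pos hx]
      rfl
  rw [h1, Fintype.sum_prod_type, Finset.mul_sum]
  refine Finset.sum_congr rfl fun k _ => ?_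
  rw [defl_eq]
  have h0 := ker_cne π
  have h2 : ∀ g : G, (if φ k = π g then θ g * F k else 0)
      = (if π g = φ k then θ g else 0) * F k := by
    intro g
    by_cases h : π g = φ k
    · rw [if_pos h, if_pos h.symm]
    · rw [if_neg h, if_neg (fun h' => h h'.symm), zero_mul]
  simp_rw [h2]
  rw [← Finset.sum_mul]
  field_simp

theorem card_pull [Finite G] [Finite K] (φ : K →* Q) {π : G →* Q} (hπ : Function.Surjective π) :
    Nat.card (pull φ π) = Nat.card K * Nat.card π.ker := by
  classical
  let _ : Fintype G := Fintype.ofFinite G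
  let _ : Fintype K := Fintype.ofFinite K
  let _ : Fintype (pull φ π) := Fintype.ofFinite _
  have h1 := sum_pull (θ := fun _ => (1 : ℂ)) φ π (fun _ => 1)
  have h2 : ∀ q : Q, defl π (fun _ => (1 : ℂ)) q = 1 := by
    intro q
    rw [defl_eq, ← Finset.sum_filter, Finset.sum_const, card_fiber π hπ q, nsmul_eq_mul, mul_one,
      inv_mul_cancel₀ (ker_cne π)]
  simp only [h2, mul_one, Finset.sum_const, Finset.card_univ, nsmul_eq_mul] at h1
  rw [Nat.card_eq_fintype_card, Nat.card_eq_fintype_card (α := K), mul_comm]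
  exact_mod_cast h1

theorem card_eq_ker [Finite G] {π : G →* Q} (hπ : Function.Surjective π) :
    Nat.card G = Nat.card Q * Nat.card π.ker := by
  rw [Subgroup.card_eq_card_quotient_mul_card_subgroup π.ker,
    Nat.card_congr (QuotientGroup.quotientKerEquivOfSurjective π hπ).toEquiv]

/-- pairing with a deflation on a group mapping to the quotient -/
theorem ipF_pull [Finite G] [Finite K] (φ : K →* Q) {π : G →* Q} (hπ : Function.Surjective π)
    (F : K → ℂ) : ipF (fun x => θ (pull2 φ π x)) (fun x => F (pull1 φ π x))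
      = ipF (fun k => defl π θ (φ k)) F := by
  classical
  let _ : Fintype G := Fintype.ofFinite G
  let _ : Fintype K := Fintype.ofFinite K
  let _ : Fintype (pull φ π) := Fintype.ofFinite _
  rw [ipF_eq, ipF_eq]
  unfold ip
  have h1 := sum_pull (θ := θ) φ π (fun k => F k⁻¹)
  have h2 : ∑ x : pull φ π, θ (pull2 φ π x) * F (pull1 φ π x⁻¹)
      = ∑ x : pull φ π, θ (pull2 φ π x) * F (pull1 φ π x)⁻¹ := by
    refine Finset.sum_congr rfl fun x _ => ?_
    rw [map_inv]
  rw [h2, h1, card_pull φ hπ]
  have hK : (Nat.card K : ℂ) ≠ 0 := card_cne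
  have h0 := ker_cne π
  push_cast
  field_simp

/-- pairing with a deflation -/
theorem ipF_defl [Finite G] [Finite Q] {π : G →* Q} (hπ : Function.Surjective π) (F : Q → ℂ) :
    ipF (defl π θ) F = ipF θ (fun g => F (π g)) := by
  classical
  let _ : Fintype G := Fintype.ofFinite G
  let _ : Fintype Q := Fintype.ofFinite Q
  rw [ipF_eq, ipF_eq]
  unfold ip
  have h1 : ∑ q : Q, defl π θ q * F q⁻¹
      = (Nat.card π.ker : ℂ)⁻¹ * ∑ g : G, θ g * F (π g⁻¹) := by
    have h2 : ∀ q : Q, defl π θ q * F q⁻¹ = (Nat.card π.ker : ℂ)⁻¹ *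
        ∑ g : G, if π g = q then θ g * F (π g⁻¹) else 0 := by
      intro q
      rw [defl_eq, mul_assoc, Finset.sum_mul]
      congr 1
      refine Finset.sum_congr rfl fun g _ => ?_
      by_cases h : π g = q
      · rw [if_pos h, if_pos h, map_inv, h]
      · rw [if_neg h, if_neg h, zero_mul]
    simp_rw [h2]
    rw [← Finset.mul_sum, Finset.sum_comm]
    congr 1
    refine Finset.sum_congr rfl fun g _ => ?_
    rw [Finset.sum_ite_eq Finset.univ (π g)]
    simp
  rw [h1, card_eq_ker hπ]
  have hQ : (Nat.card Q : ℂ) ≠ 0 := card_cne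
  have h0 := ker_cne π
  push_cast
  field_simp

/-- the deflation of a Heilbronn class function is a Heilbronn class function -/
theorem heil_defl [Finite G] (h : Heil θ) {π : G →* Q} (hπ : Function.Surjective π) :
    Heil (defl π θ) where
  conj g x := by
    classical
    let _ : Fintype G := Fintype.ofFinite G
    obtain ⟨y, rfl⟩ := hπ g
    rw [defl_eq, defl_eq]
    congr 1
    rw [← Equiv.sum_comp (MulAut.conj y).toEquiv]
    refine Finset.sum_congr rfl fun k _ => ?_
    change (if π (y * k * y⁻¹) = π y * x * (π y)⁻¹ then θ (y * k * y⁻¹) else 0) = _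
    rw [h.conj, map_mul, map_mul, map_inv]
    have h1 : π y * π k * (π y)⁻¹ = π y * x * (π y)⁻¹ ↔ π k = x := by
      constructor
      · intro h2
        exact mul_left_cancel (mul_right_cancel h2)
      · intro h2
        rw [h2]
    simp only [h1]
  coeff K _ _ φ ψ := by
    classical
    let _ : Fintype G := Fintype.ofFinite G
    let _ : Fintype (pull φ π) := Fintype.ofFinite _
    obtain ⟨m, hm⟩ := h.coeff (pull φ π) (pull2 φ π) (ψ.comp (pull1 φ π))
    refine ⟨m, ?_⟩
    have h1 := sum_pull (θ := θ) φ π (fun k => (((ψ k)⁻¹ : ℂˣ) : ℂ))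
    have h2 : ∑ x : pull φ π, θ (pull2 φ π x) * (((ψ (pull1 φ π x))⁻¹ : ℂˣ) : ℂ)
        = (m : ℂ) * (Fintype.card (pull φ π) : ℂ) := hm
    rw [h2, ← Nat.card_eq_fintype_card, card_pull φ hπ, Nat.card_eq_fintype_card (α := K)] at h1
    have h0 := ker_cne π
    have h3 : (Nat.card π.ker : ℂ) * ∑ k : K, defl π θ (φ k) * (((ψ k)⁻¹ : ℂˣ) : ℂ)
        = (Nat.card π.ker : ℂ) * (m * (Fintype.card K : ℂ)) := by
      rw [← h1]
      push_cast
      ring
    exact mul_left_cancel₀ h0 h3

/-- the degree of a deflation -/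
theorem deg_defl [Finite G] (h : Heil θ) {π : G →* Q} (hπ : Function.Surjective π) {r : ℕ}
    (hr : θ 1 = r) : ∃ s : ℕ, defl π θ 1 = s ∧ s ≤ r := by
  classical
  let _ : Fintype G := Fintype.ofFinite G
  obtain ⟨s, hs⟩ := (heil_defl h hπ).exists_deg
  refine ⟨s, hs, ?_⟩
  have h1 : ‖defl π θ 1‖ ≤ r := by
    rw [defl_eq, norm_mul, norm_inv, Complex.norm_natCast]
    have h2 : ‖∑ g : G, if π g = 1 then θ g else 0‖ ≤ Nat.card π.ker * r := by
      rw [← Finset.sum_filter]
      refine (norm_sum_le _ _).trans ?_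
      refine (Finset.sum_le_sum fun g _ => Pool.Agent.H42.Hb.norm_le h hr g).trans ?_
      rw [Finset.sum_const, card_fiber π hπ 1, nsmul_eq_mul]
    have h3 : (0 : ℝ) < Nat.card π.ker := by exact_mod_cast Nat.card_pos
    rw [inv_mul_le_iff₀ h3]
    exact h2
  rw [hs, Complex.norm_natCast] at h1
  exact_mod_cast h1

end pull

end Pool.Agent.H72.Sol
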