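import Pool.Agent.H72.Sol.Sec
import Pool.Agent.H42.Hb.Kernel

/-!
Minimal sections with a Heilbronn class function which has a negative inner product.
-/

open Finset

open scoped ComplexOrder

namespace Pool.Agent.H72.Sol

open Pool.Agent.H7.HB Pool.Agent.H7.Artin Pool.Agent.H98.GL

set_option linter.unusedSectionVars false

variable {G : Type} [Group G] {θ : G → ℂ}

/-- positivity of a deflation -/
theorem pos_defl_iff {K X : Type} [Group K] [Finite K] [Group X] [Finite X] {θ : K → ℂ}
    {p : K →* X} (hp : Function.Surjective p) : Pos (defl p θ) ↔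
    ∀ (V : Type) [AddCommGroup V] [Module ℂ V] [FiniteDimensional ℂ V]
      (ρ : Representation ℂ X V), 0 ≤ ipF θ (fun k => ρ.character (p k)) := by
  constructor
  · intro h V _ _ _ ρ
    rw [← ipF_defl hp]
    exact h V ρ
  · intro h V _ _ _ ρ
    rw [ipF_defl hp]
    exact h V ρ

/-- the section of `G` given by an injection `f` and a surjection `p` has size `n` and the deflated
function is not positive -/
def IsBad [Finite G] (θ : G → ℂ) (n : ℕ) : Prop :=
  ∃ (K X : Type) (_ : Group K) (_ : Finite K) (_ : Group X) (_ : Finite X) (f : K →* G)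
    (p : K →* X), Function.Injective f ∧ Function.Surjective p ∧ Nat.card X = n ∧
    ¬ Pos (defl p (fun k => θ (f k)))

/-- **Minimal sections.** -/
theorem exists_section [Finite G] (hnp : ¬ Pos θ) :
    ∃ (K X : Type) (_ : Group K) (_ : Finite K) (_ : Group X) (_ : Finite X) (f : K →* G)
      (p : K →* X), Function.Injective f ∧ Function.Surjective p ∧
      ¬ Pos (defl p (fun k => θ (f k))) ∧
      (∀ T : Subgroup X, T ≠ ⊤ → Pos (fun t : T => defl p (fun k => θ (f k)) t)) ∧
      (∀ (N : Subgroup X) [N.Normal], N ≠ ⊥ →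
        Pos (defl (QuotientGroup.mk' N) (defl p (fun k => θ (f k))))) := by
  classical
  have hex : ∃ n, IsBad θ n := by
    refine ⟨Nat.card G, G, G, inferInstance, inferInstance, inferInstance, inferInstance,
      MonoidHom.id G, MonoidHom.id G, Function.injective_id, Function.surjective_id, rfl, ?_⟩
    rw [pos_defl_iff Function.surjective_id]
    exact fun h => hnp fun V _ _ _ ρ => h V ρ
  obtain ⟨K, X, _, _, _, _, f, p, hf, hp, hX, hbad⟩ := Nat.find_spec hex
  refine ⟨K, X, inferInstance, inferInstance, inferInstance, inferInstance, f, p, hf, hp, hbad,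
    ?_, ?_⟩
  · intro T hT
    by_contra hcon
    have hlt : Nat.card T < Nat.find hex := by
      rw [← hX]
      have h1 : T < ⊤ := lt_top_iff_ne_top.2 hT
      have h2 := Set.Finite.card_lt_card (Set.toFinite ((⊤ : Subgroup X) : Set X)) h1
      have h3 : Nat.card ((⊤ : Subgroup X) : Set X) = Nat.card X := by
        rw [Subgroup.coe_top, Nat.card_univ]
      rw [h3] at h2
      exact h2
    refine Nat.find_min hex hlt ?_
    refine ⟨pull T.subtype p, T, inferInstance, inferInstance, inferInstance, inferInstance,
      f.comp (pull2 T.subtype p), pull1 T.subtype p,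
      hf.comp (pull2_inj p T.subtype_injective), pull1_surj T.subtype hp, rfl, ?_⟩
    rw [pos_defl_iff (pull1_surj T.subtype hp)]
    intro h
    apply hcon
    intro V _ _ _ ρ
    have h1 := ipF_pull (θ := fun k => θ (f k)) T.subtype hp ρ.character
    rw [← show ipF (fun k => defl p (fun k => θ (f k)) (T.subtype k)) ρ.character
      = ipF (fun t : T => defl p (fun k => θ (f k)) t) ρ.character from rfl, ← h1]
    exact h V ρ
  · intro N _ hN
    by_contra hcon
    have hlt : Nat.card (X ⧸ N) < Nat.find hex := by
      rw [← hX]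
      have h4 := Subgroup.card_eq_card_quotient_mul_card_subgroup N
      have h5 : 1 < Nat.card N := by
        rw [Finite.one_lt_card_iff_nontrivial]
        exact (Subgroup.nontrivial_iff_ne_bot N).2 hN
      have h6 : 0 < Nat.card (X ⧸ N) := Nat.card_pos
      nlinarith
    refine Nat.find_min hex hlt ?_
    have hs := QuotientGroup.mk'_surjective N
    refine ⟨K, X ⧸ N, inferInstance, inferInstance, inferInstance, inferInstance,
      f, (QuotientGroup.mk' N).comp p, hf, hs.comp hp, rfl, ?_⟩
    rw [pos_defl_iff (p := (QuotientGroup.mk' N).comp p) (hs.comp hp)]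
    intro h
    apply hcon
    rw [pos_defl_iff hs]
    intro V _ _ _ ρ
    rw [ipF_defl hp]
    exact h V ρ

/-- In a minimal group the function is constant on no nontrivial normal subgroup. -/
theorem minimal_faithful [Finite G] (h : Heil θ)
    (hquot : ∀ (N : Subgroup G) [N.Normal], N ≠ ⊥ → Pos (defl (QuotientGroup.mk' N) θ))
    (hnp : ¬ Pos θ) (N : Subgroup G) (hN : N.Normal) (hc : ∀ x ∈ N, θ x = θ 1) : N = ⊥ := by
  by_contra hne
  apply hnp
  refine pos_of_defl N (fun g n hn => ?_) (hquot N hne)
  exact Pool.Agent.H42.Hb.kernel h N hc _ _ (by rwa [mul_inv_cancel_right])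

/-- The structure of a minimal group. -/
theorem minimal_data [Finite G] (h : Heil θ) {r : ℕ} (hr : θ 1 = r)
    (hsub : ∀ T : Subgroup G, T ≠ ⊤ → Pos (fun t : T => θ t))
    (hquot : ∀ (N : Subgroup G) [N.Normal], N ≠ ⊥ → Pos (defl (QuotientGroup.mk' N) θ))
    (hnp : ¬ Pos θ) :
    (∀ A : Subgroup G, A.Normal → IsComm A → A ≤ Subgroup.center G) ∧
    ∃ κ : Subgroup.center G →* ℂˣ, Function.Injective κ ∧ ∃ ϑ : G → ℂ, Heil ϑ ∧
      (∀ (z : Subgroup.center G) x, ϑ (z * x) = ((κ z : ℂˣ) : ℂ) * ϑ x) ∧ ¬ Pos ϑ ∧
      ∃ e : ℕ, ϑ 1 = e ∧ e ≠ 0 ∧ e ≤ r := by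
  classical
  constructor
  · intro A hA hAc
    let _ : CommGroup A := commGrp A hAc
    let _ : Fintype A := Fintype.ofFinite A
    obtain ⟨κ, hκ1, hκ2, -⟩ := exists_faithful_part h.conj hsub hquot hnp A.subtype
      A.subtype_injective (fun g a => ⟨⟨g * a * g⁻¹, hA.conj_mem a a.2 g⟩, rfl⟩)
    intro a ha
    rw [Subgroup.mem_center_iff]
    intro g
    obtain ⟨a', h1, h2⟩ := hκ2 g ⟨a, ha⟩
    have h3 : a' = ⟨a, ha⟩ := hκ1 h2
    rw [h3] at h1
    have h4 : a = g * a * g⁻¹ := h1
    calc g * a = g * a * g⁻¹ * g := by group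
      _ = a * g := by rw [← h4]
  · let _ : CommGroup (Subgroup.center G) := commGrp (Subgroup.center G)
      (fun x hx y _ => (Subgroup.mem_center_iff.1 hx y).symm)
    let _ : Fintype (Subgroup.center G) := Fintype.ofFinite _
    have hcomm : ∀ (a : Subgroup.center G) x, (Subgroup.center G).subtype a * x
        = x * (Subgroup.center G).subtype a := by
      intro a x
      exact (Subgroup.mem_center_iff.1 a.2 x).symm
    obtain ⟨κ, hκ1, hκ2, hκ3⟩ := exists_faithful_part (A := Subgroup.center G) h.conj hsub hquot
      hnp (Subgroup.center G).subtype (Subgroup.center G).subtype_injective (fun g a => ⟨a, by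
        rw [← hcomm, mul_inv_cancel_right]⟩)
    have hpart : Heil (part (Subgroup.center G).subtype κ θ) :=
      Pool.Agent.H42.Hb.heil_coef h _ hcomm κ
    obtain ⟨e, he⟩ := hpart.exists_deg
    refine ⟨κ, hκ1, _, hpart, ?_, hκ3, e, he, ?_, ?_⟩
    · intro z x
      have h1 := coef_translate' (fun a => θ ((Subgroup.center G).subtype a * x)) κ z
      unfold part
      rw [← h1]
      congr 1
      funext a
      rw [map_mul]
      simp [mul_assoc]
    · rintro rfl
      apply hκ3
      have hz : part (Subgroup.center G).subtype κ θ = 0 := by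
        funext g
        have := Pool.Agent.H42.Hb.norm_le hpart he g
        rw [Nat.cast_zero] at this
        exact norm_le_zero_iff.1 this
      rw [hz]
      intro V _ _ _ ρ
      let _ : Fintype G := Fintype.ofFinite G
      rw [ipF_eq]
      unfold ip
      simp
    · have h1 : part (Subgroup.center G).subtype κ θ 1
          = (mult h (Subgroup.center G).subtype κ : ℂ) := by
        rw [← mult_spec h]
        unfold part
        simp
      rw [he] at h1
      have h2 : e = mult h (Subgroup.center G).subtype κ := by exact_mod_cast h1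
      have h3 := sum_mult h (Subgroup.center G).subtype
      rw [hr] at h3
      have h4 : r = ∑ κ, mult h (Subgroup.center G).subtype κ := by exact_mod_cast h3
      rw [h2, h4]
      exact Finset.single_le_sum (f := fun κ => mult h (Subgroup.center G).subtype κ)
        (fun _ _ => Nat.zero_le _) (Finset.mem_univ κ)

end Pool.Agent.H72.Sol
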