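import Pool.Agent.H72.Sol.Pos

/-!
Isotypic parts of class functions along a normal commutative subgroup, and minimal groups with a
Heilbronn class function which has a negative inner product.
-/

open Finset

open scoped ComplexOrder

namespace Pool.Agent.H72.Sol

open Pool.Agent.H7.HB Pool.Agent.H7.Artin

set_option linter.unusedSectionVars false

variable {G : Type} [Group G] {θ : G → ℂ}

section iso

variable {A : Type} [Group A] [Fintype A]

/-- the invariance of the character `κ` -/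
def Inv (i : A →* G) (κ : A →* ℂˣ) : Prop := ∀ g : G, ∀ a : A, ∃ a', i a' = g * i a * g⁻¹ ∧ κ a' = κ a

variable {V : Type} [AddCommGroup V] [Module ℂ V]

/-- the isotypic subspace -/
def isoSub (i : A →* G) (κ : A →* ℂˣ) (ρ : Representation ℂ G V) : Submodule ℂ V where
  carrier := {v | ∀ a, ρ (i a) v = ((κ a : ℂˣ) : ℂ) • v}
  add_mem' := by
    intro v w hv hw a
    rw [map_add, hv, hw, smul_add]
  zero_mem' := by
    intro a
    rw [map_zero, smul_zero]
  smul_mem' := by
    intro c v hv a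
    rw [map_smul, hv, smul_comm]

theorem iso_mem {i : A →* G} {κ : A →* ℂˣ} (hinv : Inv i κ) (ρ : Representation ℂ G V) (g : G) :
    ∀ v ∈ isoSub i κ ρ, ρ g v ∈ isoSub i κ ρ := by
  intro v hv a
  obtain ⟨a', h1, h2⟩ := hinv g⁻¹ a
  have h3 : i a * g = g * i a' := by rw [h1]; group
  rw [← Module.End.mul_apply, ← map_mul, h3, map_mul, Module.End.mul_apply, hv a', h2, map_smul]

/-- the isotypic subrepresentation -/
def isoRep {i : A →* G} {κ : A →* ℂˣ} (hinv : Inv i κ) (ρ : Representation ℂ G V) :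
    Representation ℂ G (isoSub i κ ρ) where
  toFun g := (ρ g).restrict (iso_mem hinv ρ g)
  map_one' := by
    ext v
    simp
  map_mul' := by
    intro a b
    ext v
    simp

theorem isoRep_apply {i : A →* G} {κ : A →* ℂˣ} (hinv : Inv i κ) (ρ : Representation ℂ G V)
    (g : G) (v : isoSub i κ ρ) : ((isoRep hinv ρ g v : isoSub i κ ρ) : V) = ρ g v := rfl

/-- the projector -/
noncomputable def isoProj (i : A →* G) (κ : A →* ℂˣ) (ρ : Representation ℂ G V) : V →ₗ[ℂ] V :=
  (Fintype.card A : ℂ)⁻¹ • ∑ a : A, (((κ a)⁻¹ : ℂˣ) : ℂ) • ρ (i a)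

theorem isoProj_apply (i : A →* G) (κ : A →* ℂˣ) (ρ : Representation ℂ G V) (v : V) :
    isoProj i κ ρ v = (Fintype.card A : ℂ)⁻¹ • ∑ a : A, (((κ a)⁻¹ : ℂˣ) : ℂ) • ρ (i a) v := by
  simp [isoProj, LinearMap.sum_apply]

theorem isoProj_mem (i : A →* G) (κ : A →* ℂˣ) (ρ : Representation ℂ G V) (v : V) :
    isoProj i κ ρ v ∈ isoSub i κ ρ := by
  intro b
  rw [isoProj_apply, map_smul, map_sum, smul_comm (((κ b : ℂˣ) : ℂ))]
  congr 1
  rw [Finset.smul_sum, ← Equiv.sum_comp (Equiv.mulLeft b)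
    (fun a => ((κ b : ℂˣ) : ℂ) • (((κ a)⁻¹ : ℂˣ) : ℂ) • ρ (i a) v)]
  refine Finset.sum_congr rfl fun a _ => ?_
  rw [map_smul, Equiv.coe_mulLeft, map_mul, map_mul, map_mul, Module.End.mul_apply, smul_smul,
    mul_inv, Units.val_mul, ← mul_assoc, ← Units.val_mul (κ b), mul_inv_cancel, Units.val_one,
    one_mul]

theorem isoProj_of_mem (i : A →* G) (κ : A →* ℂˣ) (ρ : Representation ℂ G V) {v : V}
    (hv : v ∈ isoSub i κ ρ) : isoProj i κ ρ v = v := by
  have hA : (Fintype.card A : ℂ) ≠ 0 := by exact_mod_cast Fintype.card_ne_zero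
  rw [isoProj_apply]
  have h1 : ∀ a : A, (((κ a)⁻¹ : ℂˣ) : ℂ) • ρ (i a) v = v := by
    intro a
    rw [hv a, smul_smul, ← Units.val_mul, inv_mul_cancel, Units.val_one, one_smul]
  simp_rw [h1]
  rw [Finset.sum_const, Finset.card_univ, ← Nat.cast_smul_eq_nsmul ℂ, smul_smul,
    inv_mul_cancel₀ hA, one_smul]

/-- the character of the isotypic subrepresentation -/
theorem isoRep_character [Finite G] [FiniteDimensional ℂ V] {i : A →* G} {κ : A →* ℂˣ}
    (hinv : Inv i κ) (ρ : Representation ℂ G V) (g : G) : (isoRep hinv ρ).character g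
      = (Fintype.card A : ℂ)⁻¹ * ∑ a : A, (((κ a)⁻¹ : ℂˣ) : ℂ) * ρ.character (g * i a) := by
  have hmem : ∀ v, (ρ g ∘ₗ isoProj i κ ρ) v ∈ isoSub i κ ρ := fun v =>
    iso_mem hinv ρ g _ (isoProj_mem i κ ρ v)
  have h1 : isoRep hinv ρ g = (ρ g ∘ₗ isoProj i κ ρ).restrict (fun v _ => hmem v) := by
    ext v
    change ρ g v = ρ g (isoProj i κ ρ v)
    rw [isoProj_of_mem i κ ρ v.2]
  unfold Representation.character
  rw [h1, LinearMap.trace_restrict_eq_of_forall_mem (isoSub i κ ρ) _ hmem]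
  have h2 : ρ g ∘ₗ isoProj i κ ρ = (Fintype.card A : ℂ)⁻¹ • ∑ a : A,
      (((κ a)⁻¹ : ℂˣ) : ℂ) • ρ (g * i a) := by
    refine LinearMap.ext fun v => ?_
    rw [LinearMap.comp_apply, isoProj_apply, map_smul, map_sum, LinearMap.smul_apply,
      LinearMap.sum_apply]
    congr 1
    refine Finset.sum_congr rfl fun a _ => ?_
    rw [map_smul, LinearMap.smul_apply, map_mul, Module.End.mul_apply]
  rw [h2, map_smul, map_sum, smul_eq_mul]
  congr 1
  refine Finset.sum_congr rfl fun a _ => ?_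
  rw [map_smul, smul_eq_mul]

/-- pairing of a function constant on the cosets of a normal subgroup -/
theorem ipF_iso_one [Finite G] [FiniteDimensional ℂ V] {i : A →* G} (hinv : Inv i 1)
    (hθ : ∀ a g, θ (i a * g) = θ g) (ρ : Representation ℂ G V) :
    ipF θ (isoRep hinv ρ).character = ipF θ ρ.character := by
  classical
  let _ : Fintype G := Fintype.ofFinite G
  rw [ipF_eq, ipF_eq]
  unfold ip
  congr 1
  have hA : (Fintype.card A : ℂ) ≠ 0 := by exact_mod_cast Fintype.card_ne_zero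
  have h3 : ∑ g : G, θ g * (isoRep hinv ρ).character g⁻¹
      = (Fintype.card A : ℂ)⁻¹ * ∑ a : A, ∑ g : G, θ g * ρ.character (g⁻¹ * i a) := by
    rw [Finset.sum_comm, Finset.mul_sum]
    refine Finset.sum_congr rfl fun g _ => ?_
    rw [isoRep_character, Finset.mul_sum, Finset.mul_sum, Finset.mul_sum]
    refine Finset.sum_congr rfl fun a _ => ?_
    rw [MonoidHom.one_apply, inv_one, Units.val_one]
    ring
  have h4 : ∀ a : A, ∑ g : G, θ g * ρ.character (g⁻¹ * i a)
      = ∑ g : G, θ g * ρ.character g⁻¹ := by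
    intro a
    rw [← Equiv.sum_comp (Equiv.mulLeft (i a)) (fun g => θ g * ρ.character (g⁻¹ * i a))]
    refine Finset.sum_congr rfl fun g _ => ?_
    rw [Equiv.coe_mulLeft, mul_inv_rev, inv_mul_cancel_right, hθ]
  rw [h3, Finset.sum_congr rfl fun a _ => h4 a, Finset.sum_const, Finset.card_univ, nsmul_eq_mul,
    ← mul_assoc, inv_mul_cancel₀ hA, one_mul]

/-- a function which is constant on the cosets of a normal subgroup is positive if its deflation
is -/
theorem pos_of_defl [Finite G] (N : Subgroup G) [N.Normal] (hθ : ∀ g, ∀ n ∈ N, θ (n * g) = θ g)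
    (hp : Pos (defl (QuotientGroup.mk' N) θ)) : Pos θ := by
  classical
  let _ : Fintype N := Fintype.ofFinite N
  have hinv : Inv N.subtype 1 := fun g a =>
    ⟨⟨g * a * g⁻¹, ‹N.Normal›.conj_mem a a.2 g⟩, rfl, rfl⟩
  intro V _ _ _ ρ
  rw [← ipF_iso_one hinv (fun a g => hθ g a a.2) ρ]
  have hker : ∀ n ∈ N, isoRep hinv ρ n = 1 := by
    intro n hn
    ext v
    rw [isoRep_apply]
    have := v.2 ⟨n, hn⟩
    rw [MonoidHom.one_apply, Units.val_one, one_smul] at this
    exact this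
  let ρ' : Representation ℂ (G ⧸ N) (isoSub N.subtype 1 ρ) :=
    QuotientGroup.lift N (isoRep hinv ρ) hker
  have h1 := hp _ ρ'
  rw [ipF_defl (QuotientGroup.mk'_surjective N)] at h1
  exact h1

end iso

section part

variable {V : Type} [AddCommGroup V] [Module ℂ V]

variable {A : Type} [CommGroup A] [Fintype A]

/-- the part of `θ` belonging to the linear character `κ` -/
noncomputable def part (i : A →* G) (κ : A →* ℂˣ) (θ : G → ℂ) (g : G) : ℂ :=
  coef (fun a => θ (i a * g)) κ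

theorem coef_translate' (f : A → ℂ) (κ : A →* ℂˣ) (b : A) :
    coef (fun a => f (a * b)) κ = ((κ b : ℂˣ) : ℂ) * coef f κ :=
  Pool.Agent.H42.Hb.coef_translate f κ b

theorem sum_part (i : A →* G) (θ : G → ℂ) (g : G) : θ g = ∑ κ, part i κ θ g := by
  have := inversion (fun a : A => θ (i a * g)) 1
  simp only [map_one, one_mul, Units.val_one, mul_one] at this
  exact this

theorem ipF_sum_part [Finite G] (i : A →* G) (θ χ : G → ℂ) :
    ipF θ χ = ∑ κ, ipF (part i κ θ) χ := by
  classical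
  let _ : Fintype G := Fintype.ofFinite G
  simp_rw [ipF_eq]
  have h1 : ip θ χ = ip (fun g => ∑ κ ∈ (Finset.univ : Finset (A →* ℂˣ)), 1 * part i κ θ g) χ := by
    congr 1
    funext g
    simp_rw [one_mul]
    exact sum_part i θ g
  rw [h1, ip_sum]
  simp_rw [one_mul]

/-- pairing with a part -/
theorem ipF_part [Finite G] [FiniteDimensional ℂ V] {i : A →* G} {κ : A →* ℂˣ} (hinv : Inv i κ)
    (ρ : Representation ℂ G V) :
    ipF (part i κ θ) ρ.character = ipF θ (isoRep hinv ρ).character := by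
  classical
  let _ : Fintype G := Fintype.ofFinite G
  rw [ipF_eq, ipF_eq]
  have hchar := isoRep_character hinv ρ
  unfold ip
  congr 1
  have h3 : ∑ g : G, θ g * (isoRep hinv ρ).character g⁻¹
      = ∑ a : A, ∑ g : G, θ g * ((Fintype.card A : ℂ)⁻¹
        * ((((κ a)⁻¹ : ℂˣ) : ℂ) * ρ.character (g⁻¹ * i a))) := by
    rw [Finset.sum_comm]
    refine Finset.sum_congr rfl fun g _ => ?_
    rw [hchar, Finset.mul_sum, Finset.mul_sum]
  have h4 : ∑ g : G, part i κ θ g * ρ.character g⁻¹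
      = ∑ a : A, ∑ g : G, θ (i a * g) * ((Fintype.card A : ℂ)⁻¹
        * ((((κ a)⁻¹ : ℂˣ) : ℂ) * ρ.character g⁻¹)) := by
    rw [Finset.sum_comm]
    refine Finset.sum_congr rfl fun g _ => ?_
    unfold part coef
    rw [div_mul_eq_mul_div, Finset.sum_mul, Finset.sum_div]
    refine Finset.sum_congr rfl fun a _ => ?_
    ring
  rw [h3, h4]
  refine Finset.sum_congr rfl fun a _ => ?_
  rw [← Equiv.sum_comp (Equiv.mulLeft (i a)) (fun g => θ g * ((Fintype.card A : ℂ)⁻¹
        * ((((κ a)⁻¹ : ℂˣ) : ℂ) * ρ.character (g⁻¹ * i a))))]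
  refine Finset.sum_congr rfl fun g _ => ?_
  rw [Equiv.coe_mulLeft, mul_inv_rev, inv_mul_cancel_right]

/-- the stabiliser of a linear character of a normal commutative subgroup -/
def stab (i : A →* G) (hi : Function.Injective i) (hn : ∀ g a, ∃ a', i a' = g * i a * g⁻¹)
    (κ : A →* ℂˣ) : Subgroup G where
  carrier := {g | ∀ a a', i a' = g * i a * g⁻¹ → κ a' = κ a}
  mul_mem' := by
    intro g h hg hh a a' ha
    obtain ⟨b, hb⟩ := hn h a
    rw [← hh a b hb]
    refine hg b a' ?_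
    rw [ha, hb]
    group
  one_mem' := by
    intro a a' ha
    have h1 : i a' = i a := by rw [ha]; group
    rw [hi h1]
  inv_mem' := by
    intro g hg a a' ha
    refine (hg a' a ?_).symm
    rw [ha]
    group

theorem part_eq_zero (hc : ∀ g x : G, θ (g * x * g⁻¹) = θ x) (i : A →* G)
    (hi : Function.Injective i) (hn : ∀ g a, ∃ a', i a' = g * i a * g⁻¹) (κ : A →* ℂˣ) {g : G}
    (hg : g ∉ stab i hi hn κ) : part i κ θ g = 0 := by
  have h0 : ∃ a a', i a' = g * i a * g⁻¹ ∧ κ a' ≠ κ a := by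
    by_contra hcon
    push Not at hcon
    exact hg hcon
  obtain ⟨b, b', hb, hne⟩ := h0
  have h1 : (fun a => θ (i (a * (b * b'⁻¹)) * g)) = fun a => θ (i a * g) := by
    funext a
    have h2 : i (a * (b * b'⁻¹)) * g = i b * (i a * g) * (i b)⁻¹ := by
      have h3 : a * (b * b'⁻¹) = b * a * b'⁻¹ := by
        rw [← mul_assoc, mul_comm a b]
      rw [h3, map_mul, map_mul, map_inv, hb]
      group
    rw [h2, hc]
  have h2 := coef_translate' (fun a => θ (i a * g)) κ (b * b'⁻¹)
  rw [h1] at h2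
  unfold part
  have h3 : ((κ (b * b'⁻¹) : ℂˣ) : ℂ) ≠ 1 := by
    intro h4
    apply hne
    have h5 : κ (b * b'⁻¹) = 1 := Units.ext h4
    rw [map_mul, map_inv, mul_inv_eq_one] at h5
    exact h5.symm
  have h4 : (1 - ((κ (b * b'⁻¹) : ℂˣ) : ℂ)) * coef (fun a => θ (i a * g)) κ = 0 := by
    rw [sub_mul, one_mul, ← h2, sub_self]
  rcases mul_eq_zero.1 h4 with h5 | h5
  · exact absurd (sub_eq_zero.1 h5).symm h3
  · exact h5

/-- **Minimal groups.**  -/
theorem exists_faithful_part [Finite G] (hc : ∀ g x : G, θ (g * x * g⁻¹) = θ x)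
    (hsub : ∀ T : Subgroup G, T ≠ ⊤ → Pos (fun t : T => θ t))
    (hquot : ∀ (N : Subgroup G) [N.Normal], N ≠ ⊥ → Pos (defl (QuotientGroup.mk' N) θ))
    (hnp : ¬ Pos θ) (i : A →* G) (hi : Function.Injective i)
    (hn : ∀ g a, ∃ a', i a' = g * i a * g⁻¹) :
    ∃ κ : A →* ℂˣ, Function.Injective κ ∧ Inv i κ ∧ ¬ Pos (part i κ θ) := by
  classical
  have h0 : ∃ (V : Type) (_ : AddCommGroup V) (_ : Module ℂ V) (_ : FiniteDimensional ℂ V)
      (ρ : Representation ℂ G V), ¬ 0 ≤ ipF θ ρ.character := by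
    by_contra hcon
    apply hnp
    intro V _ _ _ ρ
    by_contra h
    exact hcon ⟨V, _, _, ‹_›, ρ, h⟩
  obtain ⟨V, _, _, _, ρ, hρ⟩ := h0
  rw [ipF_sum_part i θ] at hρ
  obtain ⟨κ, hκ⟩ : ∃ κ : A →* ℂˣ, ¬ 0 ≤ ipF (part i κ θ) ρ.character := by
    by_contra hcon
    push Not at hcon
    exact hρ (Finset.sum_nonneg fun κ _ => hcon κ)
  -- the character is invariant
  have hst : stab i hi hn κ = ⊤ := by
    by_contra hne
    apply hκ
    let T := stab i hi hn κ
    have hiT : ∀ a, i a ∈ T := by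
      intro a b b' hb
      have h1 : i b' = i b := by
        rw [hb, ← map_mul, ← map_inv, ← map_mul, mul_comm a b, mul_inv_cancel_right]
      rw [hi h1]
    let iT : A →* T := i.codRestrict T hiT
    have hinv : Inv iT κ := by
      intro g a
      obtain ⟨a', ha'⟩ := hn (g : G) a
      exact ⟨a', Subtype.ext ha', g.2 a a' ha'⟩
    rw [ipF_sub T (part i κ θ) ρ.character (fun g hg => part_eq_zero hc i hi hn κ hg)]
    have h1 : ipF (fun t : T => part i κ θ t) (fun t : T => ρ.character t)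
        = ipF (part iT κ (fun t : T => θ t)) (Representation.character (ρ.comp T.subtype)) := rfl
    rw [h1, ipF_part hinv]
    have h2 := hsub T hne _ (isoRep hinv (ρ.comp T.subtype))
    have h3 : (0 : ℂ) ≤ (Nat.card T : ℂ) / Nat.card G := by
      have : ((Nat.card T : ℂ) / Nat.card G) = (((Nat.card T : ℝ) / Nat.card G : ℝ) : ℂ) := by
        push_cast
        rfl
      rw [this]
      have h4 : (0 : ℝ) ≤ (Nat.card T : ℝ) / Nat.card G := by positivity
      exact_mod_cast h4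
    exact mul_nonneg h3 h2
  have hinv : Inv i κ := by
    intro g a
    obtain ⟨a', ha'⟩ := hn g a
    have hg : g ∈ stab i hi hn κ := by rw [hst]; exact Subgroup.mem_top g
    exact ⟨a', ha', hg a a' ha'⟩
  refine ⟨κ, ?_, hinv, fun h => hκ (h V ρ)⟩
  -- faithful
  rw [← MonoidHom.ker_eq_bot_iff]
  by_contra hne
  apply hκ
  let N : Subgroup G := κ.ker.map i
  have hN : N.Normal := by
    refine ⟨?_⟩
    rintro _ ⟨a, ha, rfl⟩ g
    obtain ⟨a', h1, h2⟩ := hinv g a
    refine ⟨a', ?_, h1⟩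
    rw [SetLike.mem_coe, MonoidHom.mem_ker] at ha ⊢
    rw [h2, ha]
  have hNb : N ≠ ⊥ := by
    intro h
    apply hne
    rw [Subgroup.map_eq_bot_iff] at h
    rw [eq_bot_iff]
    refine h.trans ?_
    rw [(MonoidHom.ker_eq_bot_iff i).2 hi]
  rw [ipF_part hinv]
  have hker : ∀ n ∈ N, isoRep hinv ρ n = 1 := by
    rintro _ ⟨a, ha, rfl⟩
    rw [SetLike.mem_coe, MonoidHom.mem_ker] at ha
    ext v
    rw [isoRep_apply]
    have := v.2 a
    rw [this, ha]
    simp
  let ρ' : Representation ℂ (G ⧸ N) (isoSub i κ ρ) := QuotientGroup.lift N (isoRep hinv ρ) hker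
  have h1 := hquot N hNb _ ρ'
  rw [ipF_defl (QuotientGroup.mk'_surjective N)] at h1
  exact h1

end part

end Pool.Agent.H72.Sol
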